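import Mathlib

/-!
# The number of subset sums of a Sidon set

A derandomised version of the following argument: for random signs `s` the product
`∏ (1 + t η s_g χ g)` has `ℓ²` coefficient norm at most `(1 + t²)^n` on average, hence its
sup norm is at most `√N (1 + t²)^(n/2)`, where `N` is the number of subset sums.
-/

set_option autoImplicit false

namespace Pool.Agent.Helper56.SidonDiss

open Finset

variable {A : Type*} [AddCommGroup A] [DecidableEq A]

/-- The set of subset sums. -/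
def ssum (B : Finset A) : Finset A := B.powerset.image (fun F => ∑ x ∈ F, x)

/-- The coefficient of `y` in the product of the factors `1 + u g [g]`. -/
noncomputable def qf (B : Finset A) (u : A → ℂ) (y : A) : ℂ :=
  ∑ F ∈ B.powerset with ∑ x ∈ F, x = y, ∏ g ∈ F, u g

theorem qf_eq_zero {B : Finset A} {u : A → ℂ} {y : A} (hy : y ∉ ssum B) : qf B u y = 0 := by
  unfold qf
  rw [Finset.sum_eq_zero]
  intro F hF
  rw [Finset.mem_filter] at hF
  exact absurd (Finset.mem_image.mpr ⟨F, hF.1, hF.2⟩) hy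

theorem qf_congr {B : Finset A} {u v : A → ℂ} (h : ∀ g ∈ B, u g = v g) (y : A) :
    qf B u y = qf B v y := by
  unfold qf
  refine Finset.sum_congr rfl (fun F hF => ?_)
  rw [Finset.mem_filter, Finset.mem_powerset] at hF
  exact Finset.prod_congr rfl (fun g hg => h g (hF.1 hg))

theorem qf_insert {B : Finset A} {g : A} (hg : g ∉ B) (u : A → ℂ) (y : A) :
    qf (insert g B) u y = qf B u y + u g * qf B u (y - g) := by
  unfold qf
  rw [Finset.sum_filter, Finset.sum_powerset_insert hg, Finset.sum_filter, Finset.sum_filter,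
    Finset.mul_sum]
  congr 1
  refine Finset.sum_congr rfl (fun F hF => ?_)
  rw [Finset.mem_powerset] at hF
  have hgF : g ∉ F := fun h => hg (hF h)
  rw [Finset.sum_insert hgF, Finset.prod_insert hgF]
  have : (g + ∑ x ∈ F, x = y) ↔ (∑ x ∈ F, x = y - g) := by
    constructor
    · intro h; rw [← h]; abel
    · intro h; rw [h]; abel
  by_cases h : ∑ x ∈ F, x = y - g
  · rw [if_pos (this.mpr h), if_pos h]
  · rw [if_neg (fun h' => h (this.mp h')), if_neg h, mul_zero]

/-- The square of the `ℓ²` norm of a function. -/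
noncomputable def nsq (f : A → ℂ) : ℝ := ∑' y, ‖f y‖ ^ 2

theorem nsq_eq {B : Finset A} (u : A → ℂ) :
    nsq (qf B u) = ∑ y ∈ ssum B, ‖qf B u y‖ ^ 2 := by
  unfold nsq
  rw [tsum_eq_sum]
  intro y hy
  rw [qf_eq_zero hy]
  simp

theorem summable_qf (B : Finset A) (u : A → ℂ) : Summable (fun y => ‖qf B u y‖ ^ 2) := by
  apply summable_of_ne_finset_zero (s := ssum B)
  intro y hy
  rw [qf_eq_zero hy]
  simp

theorem summable_qf' (B : Finset A) (u : A → ℂ) (g : A) :
    Summable (fun y => ‖qf B u (y - g)‖ ^ 2) :=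
  (Equiv.subRight g).summable_iff.mpr (summable_qf B u)

/-- the parallelogram law for one factor -/
theorem nsq_step {B : Finset A} {g : A} (hg : g ∉ B) (u v : A → ℂ)
    (huv : ∀ b ∈ B, u b = v b) (hg' : v g = - u g) :
    nsq (qf (insert g B) u) + nsq (qf (insert g B) v)
      = 2 * (1 + ‖u g‖ ^ 2) * nsq (qf B u) := by
  have h1 : ∀ y, qf (insert g B) v y = qf B u y - u g * qf B u (y - g) := by
    intro y
    rw [qf_insert hg, hg', qf_congr (u := v) (v := u) (fun b hb => (huv b hb).symm),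
      qf_congr (u := v) (v := u) (fun b hb => (huv b hb).symm)]
    ring
  unfold nsq
  rw [← (summable_qf _ u).tsum_add (summable_qf _ v)]
  have h2 : ∀ y, ‖qf (insert g B) u y‖ ^ 2 + ‖qf (insert g B) v y‖ ^ 2
      = 2 * ‖qf B u y‖ ^ 2 + 2 * ‖u g‖ ^ 2 * ‖qf B u (y - g)‖ ^ 2 := by
    intro y
    rw [h1, qf_insert hg]
    have := parallelogram_law_with_norm ℝ (qf B u y) (u g * qf B u (y - g))
    rw [norm_mul] at this
    nlinarith [this]
  have h3 : ∑' y, ‖qf B u (y - g)‖ ^ 2 = ∑' y, ‖qf B u y‖ ^ 2 :=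
    (Equiv.subRight g).tsum_eq (fun y => ‖qf B u y‖ ^ 2)
  rw [tsum_congr h2, ((summable_qf B u).mul_left 2).tsum_add
    ((summable_qf' B u g).mul_left (2 * ‖u g‖ ^ 2)), tsum_mul_left, tsum_mul_left, h3]
  ring

theorem exists_signs (B : Finset A) (H : Finset ℂ) (hH : ∀ η ∈ H, ‖η‖ = 1) (t : ℝ) :
    ∃ s : A → ℝ, (∀ a, s a = 1 ∨ s a = -1) ∧
      ∑ η ∈ H, nsq (qf B (fun g => t * η * s g)) ≤ #H * (1 + t ^ 2) ^ #B := by
  induction B using Finset.induction_on with
  | empty =>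
    refine ⟨fun _ => 1, fun _ => Or.inl rfl, ?_⟩
    have : ∀ η ∈ H, nsq (qf (∅ : Finset A) (fun g => (t : ℂ) * η * ((1 : ℝ) : ℂ))) ≤ 1 := by
      intro η _
      rw [nsq_eq]
      simp [ssum, qf, Finset.filter_singleton]
    simpa using Finset.sum_le_sum this
  | insert g B hg ih =>
    obtain ⟨s, hs, hsum⟩ := ih
    set sp : A → ℝ := Function.update s g 1 with hsp
    set sm : A → ℝ := Function.update s g (-1) with hsm
    have hspB : ∀ b ∈ B, sp b = s b := fun b hb => by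
      rw [hsp, Function.update_of_ne (fun h => hg (by rw [← h]; exact hb))]
    have hsmB : ∀ b ∈ B, sm b = s b := fun b hb => by
      rw [hsm, Function.update_of_ne (fun h => hg (by rw [← h]; exact hb))]
    have hspg : sp g = 1 := by rw [hsp, Function.update_self]
    have hsmg : sm g = -1 := by rw [hsm, Function.update_self]
    have hsp1 : ∀ a, sp a = 1 ∨ sp a = -1 := by
      intro a
      by_cases h : a = g
      · rw [h, hspg]; exact Or.inl rfl
      · rw [hsp, Function.update_of_ne h]; exact hs a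
    have hsm1 : ∀ a, sm a = 1 ∨ sm a = -1 := by
      intro a
      by_cases h : a = g
      · rw [h, hsmg]; exact Or.inr rfl
      · rw [hsm, Function.update_of_ne h]; exact hs a
    have key : ∑ η ∈ H, nsq (qf (insert g B) (fun g => t * η * sp g))
        + ∑ η ∈ H, nsq (qf (insert g B) (fun g => t * η * sm g))
        = 2 * (1 + t ^ 2) * ∑ η ∈ H, nsq (qf B (fun g => t * η * s g)) := by
      rw [← Finset.sum_add_distrib, Finset.mul_sum]
      refine Finset.sum_congr rfl (fun η hη => ?_)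
      have := nsq_step hg (fun g => (t : ℂ) * η * sp g) (fun g => (t : ℂ) * η * sm g)
        (fun b hb => by simp only [hspB b hb, hsmB b hb])
        (by simp only [hspg, hsmg]; push_cast; ring)
      rw [this]
      have hn : ‖(t : ℂ) * η * (sp g : ℂ)‖ ^ 2 = t ^ 2 := by
        rw [hspg, norm_mul, norm_mul, hH η hη]
        simp
      rw [hn]
      congr 2
      funext y
      exact qf_congr (fun b hb => by simp only [hspB b hb]) y
    have hcard : (#(insert g B) : ℕ) = #B + 1 := Finset.card_insert_of_notMem hg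
    rw [hcard, pow_succ]
    have hT : 2 * (1 + t ^ 2) * ∑ η ∈ H, nsq (qf B (fun g => t * η * s g))
        ≤ 2 * (#H * ((1 + t ^ 2) ^ #B * (1 + t ^ 2))) := by
      have : 0 ≤ 2 * (1 + t ^ 2) := by positivity
      calc _ ≤ 2 * (1 + t ^ 2) * (#H * (1 + t ^ 2) ^ #B) := mul_le_mul_of_nonneg_left hsum this
        _ = _ := by ring
    by_cases hle : ∑ η ∈ H, nsq (qf (insert g B) (fun g => t * η * sp g))
        ≤ #H * ((1 + t ^ 2) ^ #B * (1 + t ^ 2))
    · exact ⟨sp, hsp1, hle⟩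
    · refine ⟨sm, hsm1, ?_⟩
      push Not at hle
      linarith

/-- The product formula. -/
theorem prod_eq (B : Finset A) (u χ : A → ℂ) (h0 : χ 0 = 1) (hχ : ∀ a b, χ (a + b) = χ a * χ b) :
    ∏ g ∈ B, (1 + u g * χ g) = ∑ y ∈ ssum B, qf B u y * χ y := by
  have hF : ∀ F : Finset A, χ (∑ x ∈ F, x) = ∏ x ∈ F, χ x := by
    intro F
    induction F using Finset.induction_on with
    | empty => simp [h0]
    | insert a F ha ih => rw [Finset.sum_insert ha, Finset.prod_insert ha, hχ, ih]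
  rw [Finset.prod_one_add]
  rw [← Finset.sum_fiberwise_of_maps_to (s := B.powerset) (t := ssum B)
    (g := fun F => ∑ x ∈ F, x) (fun F hF => Finset.mem_image_of_mem _ hF)]
  refine Finset.sum_congr rfl (fun y _ => ?_)
  unfold qf
  rw [Finset.sum_mul]
  refine Finset.sum_congr rfl (fun F hFy => ?_)
  rw [Finset.mem_filter] at hFy
  rw [Finset.prod_mul_distrib, ← hF F, hFy.2]

theorem sq_prod_le (B : Finset A) (u χ : A → ℂ) (h0 : χ 0 = 1)
    (hχ : ∀ a b, χ (a + b) = χ a * χ b) (hn : ∀ a, ‖χ a‖ = 1) :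
    ‖∏ g ∈ B, (1 + u g * χ g)‖ ^ 2 ≤ #(ssum B) * nsq (qf B u) := by
  rw [prod_eq B u χ h0 hχ, nsq_eq]
  calc ‖∑ y ∈ ssum B, qf B u y * χ y‖ ^ 2
      ≤ (∑ y ∈ ssum B, ‖qf B u y‖) ^ 2 := by
        apply pow_le_pow_left₀ (norm_nonneg _)
        refine (norm_sum_le _ _).trans (le_of_eq ?_)
        refine Finset.sum_congr rfl (fun y _ => ?_)
        rw [norm_mul, hn, mul_one]
    _ ≤ _ := sq_sum_le_card_mul_sum_sq

theorem one_add_sq_ge {t : ℝ} (ht : t ≤ 1 / 10) {w : ℂ} (hw : ‖w‖ = t) :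
    Real.exp (2 * w.re - 4 * t ^ 2) ≤ ‖1 + w‖ ^ 2 := by
  have hr : |w.re| ≤ t := hw ▸ Complex.abs_re_le_norm w
  obtain ⟨hr1, hr2⟩ := abs_le.mp hr
  have h1 : ‖1 + w‖ ^ 2 = 1 + 2 * w.re + t ^ 2 := by
    have h2 : ‖w‖ ^ 2 = w.re * w.re + w.im * w.im := by
      rw [← Complex.normSq_eq_norm_sq, Complex.normSq_apply]
    rw [← Complex.normSq_eq_norm_sq, Complex.normSq_apply, Complex.add_re, Complex.add_im,
      Complex.one_re, Complex.one_im, ← hw, h2]
    ring
  rw [h1]
  set r := w.re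
  have hpos : 0 < 1 - 2 * r + 4 * t ^ 2 := by nlinarith
  have h3 : Real.exp (2 * r - 4 * t ^ 2) * (1 - 2 * r + 4 * t ^ 2) ≤ 1 := by
    have h4 : 1 - 2 * r + 4 * t ^ 2 ≤ Real.exp (-(2 * r - 4 * t ^ 2)) := by
      have := Real.add_one_le_exp (-(2 * r - 4 * t ^ 2))
      linarith
    calc _ ≤ Real.exp (2 * r - 4 * t ^ 2) * Real.exp (-(2 * r - 4 * t ^ 2)) :=
          mul_le_mul_of_nonneg_left h4 (Real.exp_pos _).le
      _ = 1 := by rw [← Real.exp_add]; simp
  have h5 : 1 ≤ (1 + 2 * r + t ^ 2) * (1 - 2 * r + 4 * t ^ 2) := by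
    nlinarith [mul_nonneg (sub_nonneg.mpr hr2) (by linarith : (0 : ℝ) ≤ t + r), sq_nonneg t,
      mul_nonneg (sq_nonneg t) (by linarith : (0 : ℝ) ≤ t + r),
      mul_nonneg (sq_nonneg t) (by linarith : (0 : ℝ) ≤ 1 / 10 - t)]
  by_contra hcon
  push Not at hcon
  have : (1 + 2 * r + t ^ 2) * (1 - 2 * r + 4 * t ^ 2)
      < Real.exp (2 * r - 4 * t ^ 2) * (1 - 2 * r + 4 * t ^ 2) :=
    mul_lt_mul_of_pos_right hcon hpos
  linarith

omit [AddCommGroup A] [DecidableEq A] in
theorem prod_sq_ge (B : Finset A) {t : ℝ} (ht : t ≤ 1 / 10) (w : A → ℂ)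
    (hw : ∀ g ∈ B, ‖w g‖ = t) :
    Real.exp (2 * (∑ g ∈ B, w g).re - 4 * t ^ 2 * #B) ≤ ‖∏ g ∈ B, (1 + w g)‖ ^ 2 := by
  rw [norm_prod, ← Finset.prod_pow]
  have h1 : 2 * (∑ g ∈ B, w g).re - 4 * t ^ 2 * #B = ∑ g ∈ B, (2 * (w g).re - 4 * t ^ 2) := by
    rw [Finset.sum_sub_distrib, ← Finset.mul_sum, Complex.re_sum, Finset.sum_const, nsmul_eq_mul]
    ring
  rw [h1, Real.exp_sum]
  exact Finset.prod_le_prod (fun _ _ => (Real.exp_pos _).le)
    (fun g hg => one_add_sq_ge ht (hw g hg))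

/-- The number of subset sums is exponentially large. -/
theorem card_le_log {X : Type*} (B : Finset A) (χ : X → A → ℂ) (h0 : ∀ x, χ x 0 = 1)
    (hχ : ∀ x a b, χ x (a + b) = χ x a * χ x b) (hn : ∀ x a, ‖χ x a‖ = 1) {C : ℝ} (hC : 1 ≤ C)
    (hS : ∀ s : A → ℝ, (∀ a, s a = 1 ∨ s a = -1) → ∀ M : ℝ,
      (∀ x, ‖∑ g ∈ B, (s g : ℂ) * χ x g‖ ≤ M) → (#B : ℝ) ≤ C * M) :
    (#B : ℝ) ≤ 20 * C ^ 2 * Real.log (4 * #(ssum B)) := by
  set H : Finset ℂ := {1, -1, Complex.I, -Complex.I} with hH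
  have hH1 : ∀ η ∈ H, ‖η‖ = 1 := by
    intro η hη
    simp only [hH, Finset.mem_insert, Finset.mem_singleton] at hη
    rcases hη with rfl | rfl | rfl | rfl <;> simp
  have hHc : (#H : ℝ) ≤ 4 := by
    have : #H ≤ 4 := Finset.card_le_four
    exact_mod_cast this
  set t : ℝ := 1 / (10 * C) with htdef
  have hCpos : 0 < C := by linarith
  have ht0 : 0 < t := by positivity
  have ht : t ≤ 1 / 10 := by
    rw [htdef]
    apply one_div_le_one_div_of_le (by norm_num)
    linarith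
  obtain ⟨s, hs, hsum⟩ := exists_signs B H hH1 t
  have hN : (0 : ℝ) < #(ssum B) := by
    have : (ssum B).Nonempty := ⟨_, Finset.mem_image_of_mem _ (Finset.empty_mem_powerset B)⟩
    exact_mod_cast this.card_pos
  set L : ℝ := Real.log (4 * #(ssum B)) with hL
  have hre : ∀ x, ∀ η ∈ H, 2 * t * (η * ∑ g ∈ B, (s g : ℂ) * χ x g).re ≤ L + 5 * t ^ 2 * #B := by
    intro x η hη
    have hw : ∀ g ∈ B, ‖(t : ℂ) * η * s g * χ x g‖ = t := by
      intro g _
      rw [norm_mul, norm_mul, norm_mul, hH1 η hη, hn]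
      rcases hs g with h | h <;> rw [h] <;> simp [abs_of_pos ht0]
    have h1 := prod_sq_ge B ht (fun g => (t : ℂ) * η * s g * χ x g) hw
    have h2 := sq_prod_le B (fun g => (t : ℂ) * η * s g) (χ x) (h0 x) (hχ x) (hn x)
    have h3 : nsq (qf B (fun g => (t : ℂ) * η * s g)) ≤ 4 * (1 + t ^ 2) ^ #B := by
      have h4 : nsq (qf B (fun g => (t : ℂ) * η * s g))
          ≤ ∑ η ∈ H, nsq (qf B (fun g => (t : ℂ) * η * s g)) :=
        Finset.single_le_sum (f := fun η => nsq (qf B (fun g => (t : ℂ) * η * s g)))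
          (fun η _ => tsum_nonneg (fun y => by positivity)) hη
      have h5 : (#H : ℝ) * (1 + t ^ 2) ^ #B ≤ 4 * (1 + t ^ 2) ^ #B :=
        mul_le_mul_of_nonneg_right hHc (by positivity)
      linarith
    have h6 : (1 + t ^ 2) ^ #B ≤ Real.exp (t ^ 2 * #B) := by
      rw [mul_comm, Real.exp_nat_mul]
      apply pow_le_pow_left₀ (by positivity)
      have := Real.add_one_le_exp (t ^ 2)
      linarith
    have h7 : Real.exp (2 * (∑ g ∈ B, (t : ℂ) * η * s g * χ x g).re - 4 * t ^ 2 * #B)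
        ≤ Real.exp (L + t ^ 2 * #B) := by
      rw [Real.exp_add, hL, Real.exp_log (by positivity)]
      calc _ ≤ _ := h1
        _ ≤ _ := h2
        _ ≤ #(ssum B) * (4 * (1 + t ^ 2) ^ #B) := mul_le_mul_of_nonneg_left h3 hN.le
        _ ≤ #(ssum B) * (4 * Real.exp (t ^ 2 * #B)) := by gcongr
        _ = _ := by ring
    rw [Real.exp_le_exp] at h7
    have h8 : (∑ g ∈ B, (t : ℂ) * η * s g * χ x g).re
        = t * (η * ∑ g ∈ B, (s g : ℂ) * χ x g).re := by
      rw [← Complex.re_ofReal_mul, Finset.mul_sum, Finset.mul_sum]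
      congr 1
      refine Finset.sum_congr rfl (fun g _ => ?_)
      ring
    rw [h8] at h7
    linarith
  have hM := hS s hs ((L + 5 * t ^ 2 * #B) / t) (by
    intro x
    set z := ∑ g ∈ B, (s g : ℂ) * χ x g with hz
    have e1 := hre x 1 (by simp [hH])
    have e2 := hre x (-1) (by simp [hH])
    have e3 := hre x Complex.I (by simp [hH])
    have e4 := hre x (-Complex.I) (by simp [hH])
    rw [← hz] at e1 e2 e3 e4
    have f1 : (1 * z).re = z.re := by simp
    have f2 : (-1 * z).re = - z.re := by simp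
    have f3 : (Complex.I * z).re = - z.im := by simp
    have f4 : (-Complex.I * z).re = z.im := by simp
    rw [f1] at e1
    rw [f2] at e2
    rw [f3] at e3
    rw [f4] at e4
    rw [le_div_iff₀ ht0]
    have h9 : ‖z‖ ≤ |z.re| + |z.im| := Complex.norm_le_abs_re_add_abs_im z
    have h10 : 2 * t * |z.re| ≤ L + 5 * t ^ 2 * #B := by
      rcases abs_cases z.re with ⟨h, _⟩ | ⟨h, _⟩ <;> rw [h] <;> assumption
    have h11 : 2 * t * |z.im| ≤ L + 5 * t ^ 2 * #B := by
      rcases abs_cases z.im with ⟨h, _⟩ | ⟨h, _⟩ <;> rw [h] <;> assumption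
    nlinarith [mul_le_mul_of_nonneg_left h9 ht0.le])
  have h12 : C * ((L + 5 * t ^ 2 * #B) / t) = 10 * C ^ 2 * L + #B / 2 := by
    rw [htdef]
    field_simp
    ring
  rw [h12] at hM
  linarith

end Pool.Agent.Helper56.SidonDiss
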